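import Pool.Agent.K4H65.EM.Spec

set_option autoImplicit false

namespace Pool.Agent.K4H65.EM

theorem scale67 (r : ℝ) (hr : r ≠ 0) : ∃ q : ℚ, q ≠ 0 ∧ 7 / 4 < (q : ℝ) * r ∧ (q : ℝ) * r < 2 := by
  have key : ∃ q : ℚ, 7 / 4 < (q : ℝ) * r ∧ (q : ℝ) * r < 2 := by
    rcases lt_or_gt_of_ne hr with h | h
    · obtain ⟨q, h1, h2⟩ := exists_rat_btwn (show (2 / r : ℝ) < (7 / 4) / r by
        exact div_lt_div_of_neg_of_lt h (by norm_num))
      exact ⟨q, (lt_div_iff_of_neg h).mp h2, (div_lt_iff_of_neg h).mp h1⟩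
    · obtain ⟨q, h1, h2⟩ := exists_rat_btwn (show ((7 / 4) / r : ℝ) < 2 / r by
        exact div_lt_div_of_pos_right (by norm_num) h)
      exact ⟨q, (div_lt_iff₀ h).mp h1, (lt_div_iff₀ h).mp h2⟩
  obtain ⟨q, h1, h2⟩ := key
  refine ⟨q, ?_, h1, h2⟩
  rintro rfl
  norm_num at h1

theorem gen : S_GEN := by
  intro n
  classical
  let b := Module.Basis.ofVectorSpace ℚ ℝ
  have hinf : Infinite (Module.Basis.ofVectorSpaceIndex ℚ ℝ) := by
    by_contra hfin
    rw [not_infinite_iff_finite] at hfin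
    have : Module.Finite ℚ ℝ := Module.Finite.of_basis b
    have h1 := Module.rank_lt_aleph0 ℚ ℝ
    rw [Real.rank_rat_real] at h1
    exact absurd h1 (not_lt.mpr Cardinal.aleph0_le_continuum)
  let f : {e : Fin n × Fin n // e.1 < e.2} ↪ Module.Basis.ofVectorSpaceIndex ℚ ℝ :=
    (Fintype.equivFin _).toEmbedding.trans (Fin.valEmbedding.trans (Infinite.natEmbedding _))
  have hli : LinearIndependent ℚ (fun e => b (f e)) := b.linearIndependent.comp f f.injective
  have hne : ∀ e, b (f e) ≠ 0 := fun e => hli.ne_zero e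
  choose q hq0 hq1 hq2 using fun e => scale67 (b (f e)) (hne e)
  let u : {e : Fin n × Fin n // e.1 < e.2} → ℝ := fun e => (q e : ℝ) * b (f e)
  have hu : LinearIndependent ℚ u := by
    have h := hli.units_smul (fun e => Units.mk0 (q e) (hq0 e))
    have he : u = (fun e => Units.mk0 (q e) (hq0 e)) • (fun e => b (f e)) := by
      funext e
      show (q e : ℝ) * b (f e) = (Units.mk0 (q e) (hq0 e)) • b (f e)
      rw [Units.smul_def, Units.val_mk0, Rat.smul_def]
    rw [he]
    exact h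
  refine ⟨fun x y => if h : x < y then u ⟨(x, y), h⟩ else if h : y < x then u ⟨(y, x), h⟩ else 15 / 8,
    ?_, ?_, ?_⟩
  · intro x y
    rcases lt_trichotomy x y with h | h | h
    · simp [h, h.not_gt]
    · subst h; rfl
    · simp [h, h.not_gt]
  · intro x y
    rcases lt_trichotomy x y with h | h | h
    · simp only [h, dif_pos]
      exact ⟨hq1 _, hq2 _⟩
    · subst h
      simp only [lt_irrefl, dif_neg, not_false_eq_true]
      norm_num
    · simp only [h, h.not_gt, dif_pos, dif_neg, not_false_eq_true]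
      exact ⟨hq1 _, hq2 _⟩
  · convert hu using 2 with e
    exact dif_pos e.2

end Pool.Agent.K4H65.EM
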