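import Pool.Agent.K4H40.NS.Spec

set_option autoImplicit false

namespace Pool.Agent.K4H40.NS

open MvPolynomial Module

noncomputable section

theorem rank67 {τ : Type} (K : Type) [Field K] (s : Finset (τ →₀ ℕ)) :
    finrank K (restrictSupport K (s : Set (τ →₀ ℕ))) = s.card := by
  rw [finrank_eq_nat_card_basis (basisRestrictSupport K (s : Set (τ →₀ ℕ)))]
  simp

theorem hs_eq67 {τ : Type} [Fintype τ] [DecidableEq τ] (K : Type) [Field K] (k : ℕ) :
    homogeneousSubmodule τ K k =
      restrictSupport K (((Finset.univ : Finset τ).finsuppAntidiag k : Finset (τ →₀ ℕ)) :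
        Set (τ →₀ ℕ)) := by
  rw [homogeneousSubmodule_eq_finsupp_supported]
  unfold restrictSupport
  congr 1
  ext m
  simp [Finset.mem_finsuppAntidiag, Finsupp.degree_eq_sum]

theorem hsrank67 {τ : Type} [Fintype τ] (K : Type) [Field K] (k : ℕ) :
    finrank K (homogeneousSubmodule τ K k) = (Fintype.card τ + k - 1).choose k := by
  classical
  rw [hs_eq67, rank67, Finset.card_finsuppAntidiag_nat_eq_choose]
  rfl

theorem span_eq67 {τ : Type} [Fintype τ] [DecidableEq τ] (K : Type) [Field K] (A : Finset τ)
    (d : ℕ) :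
    Submodule.span K {p : MvPolynomial τ K |
      ∃ a ∈ A, ∃ f ∈ homogeneousSubmodule τ K d, p = X a * f} =
    restrictSupport K ((((Finset.univ : Finset τ).finsuppAntidiag (d + 1)).filter
      (fun m => ∃ a ∈ A, m a ≠ 0) : Finset (τ →₀ ℕ)) : Set (τ →₀ ℕ)) := by
  apply le_antisymm
  · rw [Submodule.span_le]
    rintro _ ⟨a, ha, f, hf, rfl⟩
    rw [SetLike.mem_coe, mem_restrictSupport_iff]
    intro m hm
    have hm' : coeff m (X a * f) ≠ 0 := by
      have := hm
      rwa [Finset.mem_coe, MvPolynomial.mem_support_iff] at this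
    rw [Finset.mem_coe, Finset.mem_filter]
    constructor
    · have hh : X a * f ∈ homogeneousSubmodule τ K (d + 1) := by
        have := (isHomogeneous_X K a).mul hf
        rw [add_comm] at this
        exact this
      rw [hs_eq67, mem_restrictSupport_iff] at hh
      exact hh hm
    · refine ⟨a, ha, ?_⟩
      rw [coeff_X_mul'] at hm'
      split_ifs at hm' with h
      · exact Finsupp.mem_support_iff.mp h
      · exact absurd rfl hm'
  · rw [restrictSupport_eq_span, Submodule.span_le]
    rintro _ ⟨m, hm, rfl⟩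
    rw [Finset.mem_coe, Finset.mem_filter] at hm
    obtain ⟨hm1, a, ha, hma⟩ := hm
    apply Submodule.subset_span
    have hle : Finsupp.single a 1 ≤ m := by
      rw [Finsupp.single_le_iff]
      exact Nat.one_le_iff_ne_zero.mpr hma
    have hm2 : Finsupp.single a 1 + (m - Finsupp.single a 1) = m := add_tsub_cancel_of_le hle
    refine ⟨a, ha, monomial (m - Finsupp.single a 1) 1, ?_, ?_⟩
    · have h1 : (monomial m (1 : K)) ∈ homogeneousSubmodule τ K (d + 1) := by
        rw [hs_eq67, monomial_mem_restrictSupport]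
        exact Or.inl hm1
      have h2 : m.degree = d + 1 := by
        rw [Finset.mem_finsuppAntidiag] at hm1
        rw [Finsupp.degree_eq_sum]
        exact hm1.1
      have h3 : (m - Finsupp.single a 1).degree = d := by
        have h4 : (Finsupp.single a 1 + (m - Finsupp.single a 1)).degree = d + 1 := by
          rw [hm2, h2]
        rw [map_add, Finsupp.degree_single] at h4
        omega
      exact isHomogeneous_monomial 1 h3
    · show monomial m (1 : K) = X a * monomial (m - Finsupp.single a 1) 1
      rw [X, monomial_mul, one_mul, hm2]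

theorem count67 {τ : Type} [Fintype τ] [DecidableEq τ] (K : Type) [Field K] (A : Finset τ)
    (d : ℕ) :
    finrank K (homogeneousSubmodule τ K (d + 1)) =
      finrank K (Submodule.span K {p : MvPolynomial τ K |
        ∃ a ∈ A, ∃ f ∈ homogeneousSubmodule τ K d, p = X a * f}) +
      ((Finset.univ \ A).card + d).choose (d + 1) := by
  rw [hs_eq67, rank67, span_eq67, rank67]
  have h1 : (((Finset.univ : Finset τ).finsuppAntidiag (d + 1)).filter
      (fun m => ¬ ∃ a ∈ A, m a ≠ 0)) = (Finset.univ \ A).finsuppAntidiag (d + 1) := by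
    ext m
    rw [Finset.mem_filter, Finset.mem_finsuppAntidiag, Finset.mem_finsuppAntidiag]
    push Not
    constructor
    · rintro ⟨⟨h1, -⟩, h2⟩
      have h3 : m.support ⊆ Finset.univ \ A := by
        intro t ht
        rw [Finset.mem_sdiff]
        refine ⟨Finset.mem_univ _, fun hA => ?_⟩
        exact Finsupp.mem_support_iff.mp ht (h2 t hA)
      refine ⟨?_, h3⟩
      rw [← h1]
      apply Finset.sum_subset (Finset.subset_univ _)
      intro t _ ht
      rw [Finset.mem_sdiff] at ht
      push Not at ht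
      exact h2 t (ht (Finset.mem_univ _))
    · rintro ⟨h1, h2⟩
      have h3 : ∀ a ∈ A, m a = 0 := by
        intro a ha
        by_contra hne
        have := h2 (Finsupp.mem_support_iff.mpr hne)
        exact (Finset.mem_sdiff.mp this).2 ha
      refine ⟨⟨?_, Finset.subset_univ _⟩, h3⟩
      rw [← h1]
      symm
      apply Finset.sum_subset (Finset.subset_univ _)
      intro t _ ht
      rw [Finset.mem_sdiff] at ht
      push Not at ht
      exact h3 t (ht (Finset.mem_univ _))
  have h2 := Finset.card_filter_add_card_filter_not (s := (Finset.univ : Finset τ).finsuppAntidiag (d + 1))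
    (fun m => ∃ a ∈ A, m a ≠ 0)
  rw [h1, Finset.card_finsuppAntidiag_nat_eq_choose] at h2
  rw [← h2]
  rfl

/-- [DIM] for a basis of the linear forms -/
theorem dimbasis67 {n : ℕ} {K : Type} [Field K] {τ : Type} [Fintype τ] [DecidableEq τ]
    (b : Basis τ K (hs n K 1)) (A : Finset τ) (d : ℕ) :
    finrank K (hs n K (d + 1)) =
      finrank K (Submodule.span K {p | ∃ a ∈ A, ∃ f ∈ hs n K d, p = (b a).1 * f}) +
      ((Finset.univ \ A).card + d).choose (d + 1) := by
  let φ : MvPolynomial τ K →ₐ[K] R n K := aeval (fun t => (b t).1)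
  let B : hs n K 1 →ₗ[K] MvPolynomial τ K := b.constr K (fun t => X t)
  let ψ : R n K →ₐ[K] MvPolynomial τ K := aeval (fun i => B ⟨X i, isHomogeneous_X K i⟩)
  have hφX : ∀ t, φ (X t) = (b t).1 := fun t => aeval_X _ t
  have hψX : ∀ i, ψ (X i) = B ⟨X i, isHomogeneous_X K i⟩ := fun i => aeval_X _ i
  have hBb : ∀ t, B (b t) = X t := fun t => b.constr_basis K _ t
  have hφB : ∀ w : hs n K 1, φ (B w) = w.1 := by
    intro w
    have h : φ.toLinearMap ∘ₗ B = (hs n K 1).subtype := b.ext (fun t => by
      show φ (B (b t)) = (b t).1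
      rw [hBb, hφX])
    exact LinearMap.congr_fun h w
  have hBhom : ∀ w : hs n K 1, (B w).IsHomogeneous 1 := by
    intro w
    have hw := b.sum_repr w
    rw [← hw, map_sum]
    refine IsHomogeneous.sum _ _ _ (fun t _ => ?_)
    rw [map_smul, hBb, MvPolynomial.smul_eq_C_mul]
    simpa using (isHomogeneous_C τ (b.repr w t)).mul (isHomogeneous_X K t)
  have hψ : ∀ w (hw : w ∈ hs n K 1), ψ w = B ⟨w, hw⟩ := by
    have hspan := homogeneousSubmodule_one_eq_span_X (σ := Fin n) (R := K)
    have key : ∀ w (hw : w ∈ Submodule.span K (Set.range (X : Fin n → R n K))),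
        ψ w = B ⟨w, by rw [hs, hspan]; exact hw⟩ := by
      intro w hw
      induction hw using Submodule.span_induction with
      | mem x hx =>
        obtain ⟨i, rfl⟩ := hx
        exact hψX i
      | zero =>
        rw [map_zero]
        exact (map_zero B).symm
      | add x y hx hy h1 h2 =>
        rw [map_add, h1, h2, ← map_add]
        rfl
      | smul c x hx h1 =>
        rw [map_smul, h1, ← map_smul]
        rfl
    intro w hw
    exact key w (by rw [← hspan]; exact hw)
  have h1 : φ.comp ψ = AlgHom.id K _ := by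
    apply MvPolynomial.algHom_ext
    intro i
    show φ (ψ (X i)) = X i
    rw [hψX, hφB]
  have h2 : ψ.comp φ = AlgHom.id K _ := by
    apply MvPolynomial.algHom_ext
    intro t
    show ψ (φ (X t)) = X t
    rw [hφX, hψ _ (b t).2]
    exact hBb t
  let e : MvPolynomial τ K ≃ₗ[K] R n K := (AlgEquiv.ofAlgHom φ ψ h1 h2).toLinearEquiv
  have he : ∀ p, e p = φ p := fun p => rfl
  have hφhom : ∀ k, ∀ f ∈ homogeneousSubmodule τ K k, φ f ∈ hs n K k := by
    intro k f hf
    have := IsHomogeneous.aeval (n := 1) hf (fun t => (b t).1) (fun t => (b t).2)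
    rw [one_mul] at this
    exact this
  have hψhom : ∀ k, ∀ f ∈ hs n K k, ψ f ∈ homogeneousSubmodule τ K k := by
    intro k f hf
    have := IsHomogeneous.aeval (n := 1) hf (fun i => B ⟨X i, isHomogeneous_X K i⟩)
      (fun i => hBhom _)
    rw [one_mul] at this
    exact this
  have hφψ : ∀ p, φ (ψ p) = p := fun p => AlgHom.congr_fun h1 p
  have hmap : (homogeneousSubmodule τ K (d + 1)).map (e : MvPolynomial τ K →ₗ[K] R n K)
      = hs n K (d + 1) := by
    apply le_antisymm
    · rintro _ ⟨f, hf, rfl⟩
      exact hφhom _ f hf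
    · intro f hf
      exact ⟨ψ f, hψhom _ f hf, hφψ f⟩
  have hS : (Submodule.span K {p : MvPolynomial τ K |
      ∃ a ∈ A, ∃ f ∈ homogeneousSubmodule τ K d, p = X a * f}).map
        (e : MvPolynomial τ K →ₗ[K] R n K) =
      Submodule.span K {p | ∃ a ∈ A, ∃ f ∈ hs n K d, p = (b a).1 * f} := by
    rw [Submodule.map_span]
    congr 1
    ext p
    constructor
    · rintro ⟨_, ⟨a, ha, f, hf, rfl⟩, rfl⟩
      refine ⟨a, ha, φ f, hφhom _ f hf, ?_⟩
      show φ (X a * f) = _
      rw [map_mul, hφX]
    · rintro ⟨a, ha, f, hf, rfl⟩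
      refine ⟨X a * ψ f, ⟨a, ha, ψ f, hψhom _ f hf, rfl⟩, ?_⟩
      show φ (X a * ψ f) = _
      rw [map_mul, hφX, hφψ]
  have hc := count67 K A d
  rw [← LinearEquiv.finrank_map_eq e (homogeneousSubmodule τ K (d + 1)),
    ← LinearEquiv.finrank_map_eq e (Submodule.span K {p : MvPolynomial τ K |
      ∃ a ∈ A, ∃ f ∈ homogeneousSubmodule τ K d, p = X a * f}), hmap, hS] at hc
  exact hc

/-- [DIM] -/
theorem dim67 : StDIM := by
  intro n r K _ l hl hli hr d
  classical
  haveI : Module.Finite K (hs n K 1) :=
    Module.Finite.iff_fg.mpr (homogeneousSubmodule_fg (Fin n) K 1)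
  let v : Fin r → hs n K 1 := fun i => ⟨l i, hl i⟩
  have hv : LinearIndependent K v := LinearIndependent.of_comp (hs n K 1).subtype hli
  let b := Basis.extend hv.linearIndepOn_id
  haveI : Fintype (hv.linearIndepOn_id.extend (Set.subset_univ (Set.range v))) :=
    FiniteDimensional.fintypeBasisIndex b
  have hcard : Fintype.card (hv.linearIndepOn_id.extend (Set.subset_univ (Set.range v))) = n := by
    rw [← finrank_eq_card_basis b]
    show finrank K (homogeneousSubmodule (Fin n) K 1) = n
    rw [hsrank67]
    simp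
  let g : Fin r → (hv.linearIndepOn_id.extend (Set.subset_univ (Set.range v))) :=
    fun i => ⟨v i, hv.linearIndepOn_id.subset_extend _ ⟨i, rfl⟩⟩
  have hg : Function.Injective g := by
    intro i j hij
    exact hv.injective (congrArg Subtype.val hij)
  have hbg : ∀ i, (b (g i)).1 = l i := by
    intro i
    have : b (g i) = v i := Basis.extend_apply_self _ (g i)
    rw [this]
  have hm := dimbasis67 b (Finset.univ.image g) d
  have hA : (Finset.univ \ Finset.univ.image g).card = n - r := by
    rw [Finset.card_sdiff_of_subset (Finset.subset_univ _), Finset.card_image_of_injective _ hg,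
      Finset.card_univ, hcard, Finset.card_univ, Fintype.card_fin]
  rw [hA] at hm
  have hset : {p : R n K | ∃ a ∈ Finset.univ.image g, ∃ f ∈ hs n K d, p = (b a).1 * f} =
      {p | ∃ i, ∃ f ∈ hs n K d, p = l i * f} := by
    ext p
    constructor
    · rintro ⟨a, ha, f, hf, rfl⟩
      obtain ⟨i, -, rfl⟩ := Finset.mem_image.mp ha
      exact ⟨i, f, hf, by rw [hbg]⟩
    · rintro ⟨i, f, hf, rfl⟩
      exact ⟨g i, Finset.mem_image_of_mem _ (Finset.mem_univ _), f, hf, by rw [hbg]⟩
  rw [hset] at hm
  exact hm

/-- [DIM] -/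
theorem dim : StDIM := @dim67

end

end Pool.Agent.K4H40.NS
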