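import Mathlib

/-!
# Reversing families of permutations have at most `4 ^ n` members

Two permutations `σ, π` of `n` points reverse each other when `σ i = π j`, `σ j = π i` for some
`i ≠ j`. Then the matrix `P_σ + P_π` has two equal rows, so its determinant is zero, while
`P_σ + P_σ` is invertible. On the other hand `det (X + P_σ)`, as a function of `X`, is a combination
of minors of `X`, so the functions `X ↦ det (X + P_σ)` span a space of dimension at most `4 ^ n`.
-/

set_option autoImplicit false

namespace Pool.Agent.K4H67.Reversing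

open Finset

variable {n : ℕ}

/-- The rows of the permutation matrix of `σ`. -/
def rows (σ : Equiv.Perm (Fin n)) : Fin n → Fin n → ℚ := fun i => Pi.single (σ i) 1

/-- The function `X ↦ det (X on the rows in S, P_σ on the other rows)`. -/
noncomputable def part (S : Finset (Fin n)) (σ : Equiv.Perm (Fin n)) :
    (Fin n → Fin n → ℚ) → ℚ :=
  fun X => Matrix.detRowAlternating (S.piecewise X (rows σ))

/-- The function `X ↦ det (X + P_σ)`. -/
noncomputable def full (σ : Equiv.Perm (Fin n)) : (Fin n → Fin n → ℚ) → ℚ :=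
  fun X => Matrix.detRowAlternating (X + rows σ)

theorem full_eq (σ : Equiv.Perm (Fin n)) : full σ = ∑ S : Finset (Fin n), part S σ := by
  funext X
  rw [Finset.sum_apply]
  exact (Matrix.detRowAlternating (R := ℚ) (n := Fin n)).toMultilinearMap.map_add_univ X (rows σ)

/-- `part S σ` depends, up to a sign, only on the image of `S`. -/
theorem part_eq (S : Finset (Fin n)) (σ τ : Equiv.Perm (Fin n))
    (h : S.image σ = S.image τ) : ∃ c : ℚ, part S σ = c • part S τ := by
  have hmem : ∀ x, (τ⁻¹ * σ) x ∉ S ↔ x ∉ S := by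
    intro x
    rw [not_iff_not]
    have h1 : x ∈ S ↔ σ x ∈ S.image σ := by simp
    have h2 : (τ⁻¹ * σ) x ∈ S ↔ σ x ∈ S.image τ := by
      rw [Equiv.Perm.mul_apply]
      constructor
      · intro hx
        exact Finset.mem_image.2 ⟨_, hx, by simp⟩
      · intro hx
        obtain ⟨y, hy, hxy⟩ := Finset.mem_image.1 hx
        rw [← hxy]
        simpa using hy
    rw [h1, h2, h]
  obtain ⟨κ, hκ1, hκ2⟩ : ∃ κ : Equiv.Perm (Fin n), (∀ x, x ∈ S → κ x = x) ∧
      ∀ x, x ∉ S → κ x = (τ⁻¹ * σ) x := by
    refine ⟨Equiv.Perm.ofSubtype (Equiv.Perm.subtypePerm (p := fun x => x ∉ S) (τ⁻¹ * σ) hmem),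
      ?_, ?_⟩
    · intro x hx
      exact Equiv.Perm.ofSubtype_apply_of_not_mem (p := fun x => x ∉ S) _ (not_not_intro hx)
    · intro x hx
      exact Equiv.Perm.ofSubtype_apply_of_mem (p := fun x => x ∉ S) _ hx
  refine ⟨((Equiv.Perm.sign κ : ℤ) : ℚ), ?_⟩
  funext X
  have hperm := Matrix.det_permute κ (Matrix.of (S.piecewise X (rows τ)))
  have hrow : S.piecewise X (rows σ) =
      ((Matrix.of (S.piecewise X (rows τ))).submatrix κ id : Fin n → Fin n → ℚ) := by
    funext i j
    by_cases hi : i ∈ S
    · have := hκ1 i hi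
      simp only [Matrix.submatrix_apply, Matrix.of_apply, id]
      rw [this, Finset.piecewise_eq_of_mem _ _ _ hi, Finset.piecewise_eq_of_mem _ _ _ hi]
    · have h3 := hκ2 i hi
      have h4 : κ i ∉ S := by rw [h3]; exact (hmem i).2 hi
      simp only [Matrix.submatrix_apply, Matrix.of_apply, id]
      rw [Finset.piecewise_eq_of_notMem _ _ _ hi, Finset.piecewise_eq_of_notMem _ _ _ h4, h3]
      simp [rows]
  rw [Pi.smul_apply, smul_eq_mul]
  unfold part
  rw [hrow]
  exact hperm

open Classical in
/-- A spanning family of functions, one for each pair of sets. -/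
noncomputable def gen (p : Finset (Fin n) × Finset (Fin n)) : (Fin n → Fin n → ℚ) → ℚ :=
  if h : ∃ τ : Equiv.Perm (Fin n), p.1.image τ = p.2 then part p.1 h.choose else 0

theorem part_mem (S : Finset (Fin n)) (σ : Equiv.Perm (Fin n)) :
    part S σ ∈ Submodule.span ℚ (Set.range (gen (n := n))) := by
  have hex : ∃ τ : Equiv.Perm (Fin n), (S, S.image σ).1.image τ = (S, S.image σ).2 := ⟨σ, rfl⟩
  obtain ⟨c, hc⟩ := part_eq S σ hex.choose hex.choose_spec.symm
  rw [hc]
  apply Submodule.smul_mem
  apply Submodule.subset_span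
  refine ⟨(S, S.image σ), ?_⟩
  unfold gen
  rw [dif_pos hex]

theorem full_mem (σ : Equiv.Perm (Fin n)) :
    full σ ∈ Submodule.span ℚ (Set.range (gen (n := n))) := by
  rw [full_eq]
  exact Submodule.sum_mem _ fun S _ => part_mem S σ

theorem full_self (σ : Equiv.Perm (Fin n)) : full σ (rows σ) ≠ 0 := by
  have h1 : full σ (rows σ) = ((2 : ℚ) • Equiv.Perm.permMatrix ℚ σ).det := by
    unfold full
    have : (rows σ + rows σ : Fin n → Fin n → ℚ) = ((2 : ℚ) • Equiv.Perm.permMatrix ℚ σ :
        Matrix (Fin n) (Fin n) ℚ) := by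
      funext i j
      simp only [Pi.add_apply, rows, Matrix.smul_apply, Equiv.Perm.permMatrix,
        PEquiv.toMatrix_apply, Pi.single_apply, smul_eq_mul, Equiv.toPEquiv_apply,
        Option.mem_some_iff]
      by_cases hj : j = σ i
      · rw [if_pos hj, if_pos hj.symm]; norm_num
      · rw [if_neg hj, if_neg (fun h => hj h.symm)]; norm_num
    rw [this]
    rfl
  rw [h1, Matrix.det_smul, Matrix.det_permutation]
  have h2 : ((Equiv.Perm.sign σ : ℤ) : ℚ) ≠ 0 := by
    rcases Int.units_eq_one_or (Equiv.Perm.sign σ) with h | h <;> simp [h]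
  exact mul_ne_zero (by positivity) h2

theorem full_reverse (σ π : Equiv.Perm (Fin n)) (i j : Fin n) (hij : i ≠ j)
    (h1 : σ i = π j) (h2 : σ j = π i) : full σ (rows π) = 0 := by
  unfold full
  refine AlternatingMap.map_eq_zero_of_eq _ _ (i := i) (j := j) ?_ hij
  simp only [Pi.add_apply, rows, h1, h2]
  rw [add_comm]

/-- A reversing family of permutations of `n` points has at most `4 ^ n` members. -/
theorem card_le (A : Finset (Equiv.Perm (Fin n)))
    (hA : ∀ σ ∈ A, ∀ π ∈ A, σ ≠ π → ∃ i j : Fin n, i ≠ j ∧ σ i = π j ∧ σ j = π i) :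
    A.card ≤ 4 ^ n := by
  classical
  have hli : LinearIndependent ℚ (fun σ : A => full σ.1) := by
    rw [Fintype.linearIndependent_iff]
    intro g hg τ
    have h1 := congrFun hg (rows τ.1)
    rw [Finset.sum_apply, Finset.sum_eq_single τ] at h1
    · simp only [Pi.smul_apply, smul_eq_mul, Pi.zero_apply, mul_eq_zero] at h1
      exact h1.resolve_right (full_self τ.1)
    · intro σ _ hne
      obtain ⟨i, j, hij, h2, h3⟩ := hA σ.1 σ.2 τ.1 τ.2 (fun h => hne (Subtype.ext h))
      simp only [Pi.smul_apply, smul_eq_mul]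
      rw [full_reverse σ.1 τ.1 i j hij h2 h3, mul_zero]
    · intro h
      exact absurd (Finset.mem_univ _) h
  have h2 := linearIndependent_le_span_aux' _ hli (Set.range (gen (n := n)))
    (by rintro _ ⟨σ, rfl⟩; exact full_mem σ.1)
  rw [Fintype.card_coe] at h2
  refine h2.trans ?_
  refine (Fintype.card_range_le (gen (n := n))).trans ?_
  rw [Fintype.card_prod, Fintype.card_finset, Fintype.card_fin, ← mul_pow]
  norm_num

end Pool.Agent.K4H67.Reversing
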