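import Mathlib

open Set

namespace Pool.Agent.K4H72.Til

theorem lexMin_exists (A : Set ℂ) (hA : A.Finite) (hne : A.Nonempty) :
    ∃ a ∈ A, ∀ b ∈ A, a.re < b.re ∨ (a.re = b.re ∧ a.im ≤ b.im) := by
  obtain ⟨a, haA, ha⟩ := Set.exists_min_image A (fun z => (toLex (z.re, z.im) : ℝ ×ₗ ℝ)) hA hne
  refine ⟨a, haA, fun b hb => ?_⟩
  have h := ha b hb
  rw [Prod.Lex.toLex_le_toLex] at h
  simpa using h

theorem lexMin_unique (A : Set ℂ) (a a' : ℂ) (ha : a ∈ A) (ha' : a' ∈ A)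
    (h : ∀ b ∈ A, a.re < b.re ∨ (a.re = b.re ∧ a.im ≤ b.im))
    (h' : ∀ b ∈ A, a'.re < b.re ∨ (a'.re = b.re ∧ a'.im ≤ b.im)) : a = a' := by
  have h1 := h a' ha'
  have h2 := h' a ha
  apply Complex.ext
  · rcases h1 with h1 | h1 <;> rcases h2 with h2 | h2 <;> linarith [h1, h2]
  · rcases h1 with h1 | h1 <;> rcases h2 with h2 | h2
    · linarith
    · linarith [h2.1]
    · linarith [h1.1]
    · linarith [h1.2, h2.2]

/-- T2: an equivariant choice (minimal real part, among these minimal imaginary part) -/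
theorem choice : ∃ c : Set ℂ → ℂ, (∀ A : Set ℂ, A.Finite → A.Nonempty → c A ∈ A) ∧
    ∀ (A : Set ℂ) (t : ℂ), A.Finite → A.Nonempty → c ((fun z => z + t) '' A) = c A + t := by
  classical
  let c : Set ℂ → ℂ := fun A => if h : A.Finite ∧ A.Nonempty then
    Classical.choose (lexMin_exists A h.1 h.2) else 0
  have hc : ∀ A : Set ℂ, A.Finite → A.Nonempty →
      c A ∈ A ∧ ∀ b ∈ A, (c A).re < b.re ∨ ((c A).re = b.re ∧ (c A).im ≤ b.im) := by
    intro A hA hne
    have hd : c A = Classical.choose (lexMin_exists A hA hne) := dif_pos ⟨hA, hne⟩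
    rw [hd]
    exact Classical.choose_spec (lexMin_exists A hA hne)
  refine ⟨c, fun A hA hne => (hc A hA hne).1, fun A t hA hne => ?_⟩
  have h1 := hc _ (hA.image (fun z => z + t)) (hne.image _)
  have h2 := hc A hA hne
  refine lexMin_unique ((fun z => z + t) '' A) _ _ h1.1 ⟨c A, h2.1, rfl⟩ h1.2 ?_
  rintro _ ⟨b, hb, rfl⟩
  rcases h2.2 b hb with h | h
  · left; simpa using h
  · right; simpa using h

end Pool.Agent.K4H72.Til
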